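import Mathlib
import Pool.Agent.Y269.EG.Stm

set_option autoImplicit false

/-!
# Classification of the pairs of points at small distance
-/

namespace Pool.Agent.Y930.EG.Typ

open Pool.Agent.Y269.EG FreeGroup

section
variable {k : ℕ}

theorem walk_append (Θ : LG k) : ∀ (l m : Wd k) (v : Θ.V),
    Θ.walk v (l ++ m) = (Θ.walk v l).bind (fun w => Θ.walk w m)
  | [], m, v => rfl
  | s :: l, m, v => by
    show (Θ.step v s).bind (fun w => Θ.walk w (l ++ m)) =
      ((Θ.step v s).bind fun w => Θ.walk w l).bind (fun w => Θ.walk w m)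
    rw [Option.bind_assoc]
    congr 1
    funext w
    exact walk_append Θ l m w

theorem walk_append_iff (Θ : LG k) (l m : Wd k) (v w : Θ.V) :
    Θ.walk v (l ++ m) = some w ↔ ∃ u, Θ.walk v l = some u ∧ Θ.walk u m = some w := by
  rw [walk_append, Option.bind_eq_some_iff]

theorem walk_single (Θ : LG k) (s : Ltr k) (v : Θ.V) : Θ.walk v [s] = Θ.step v s := by
  show (Θ.step v s).bind (fun w => some w) = _
  cases Θ.step v s <;> rfl

theorem walk_cons_iff (Θ : LG k) (s : Ltr k) (m : Wd k) (v w : Θ.V) :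
    Θ.walk v (s :: m) = some w ↔ ∃ u, Θ.step v s = some u ∧ Θ.walk u m = some w := by
  show (Θ.step v s).bind (fun w => Θ.walk w m) = some w ↔ _
  rw [Option.bind_eq_some_iff]

theorem walk_invRev (Θ : LG k) : ∀ (l : Wd k) (v w : Θ.V), Θ.walk v l = some w →
    Θ.walk w (invRev l) = some v
  | [], v, w, h => by
    have : v = w := by
      simpa [LG.walk] using h
    rw [this]
    rfl
  | s :: l, v, w, h => by
    obtain ⟨u, hu, hw⟩ := (walk_cons_iff Θ s l v w).1 h
    have h1 := walk_invRev Θ l u w hw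
    rw [invRev_cons, walk_append_iff]
    refine ⟨u, h1, ?_⟩
    show Θ.walk u [(s.1, !s.2)] = some v
    rw [walk_single]
    exact Θ.inv v s u hu

theorem walk_step (Θ : LG k) {l m : Wd k} (h : Red.Step l m) (v w : Θ.V)
    (hw : Θ.walk v l = some w) : Θ.walk v m = some w := by
  cases h with
  | @not L₁ L₂ x b =>
    rw [walk_append_iff] at hw ⊢
    obtain ⟨u, hu, h1⟩ := hw
    refine ⟨u, hu, ?_⟩
    obtain ⟨a, ha, h2⟩ := (walk_cons_iff Θ _ _ _ _).1 h1
    obtain ⟨c, hc, h3⟩ := (walk_cons_iff Θ _ _ _ _).1 h2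
    have h4 := Θ.inv u (x, b) a ha
    simp only at h4
    rw [h4] at hc
    have : u = c := by simpa using hc
    rw [this]
    exact h3

theorem walk_red (Θ : LG k) {l m : Wd k} (h : Red l m) (v w : Θ.V)
    (hw : Θ.walk v l = some w) : Θ.walk v m = some w := by
  induction h with
  | refl => exact hw
  | tail _ h2 ih => exact walk_step Θ h2 v w ih

/-- The label of a closed path is in the normal subgroup. -/
theorem closed_mem (Θ : LG k) (hc : ∀ v, ∃ l, Θ.walk Θ.v0 l = some v) (v : Θ.V) (l : Wd k)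
    (h : Θ.walk v l = some v) : (mk l : F k) ∈ NN Θ := by
  obtain ⟨p, hp⟩ := hc v
  have h1 : Θ.walk Θ.v0 (p ++ (l ++ invRev p)) = some Θ.v0 := by
    rw [walk_append_iff]
    refine ⟨v, hp, ?_⟩
    rw [walk_append_iff]
    exact ⟨v, h, walk_invRev Θ p _ _ hp⟩
  have h2 : (mk (p ++ (l ++ invRev p)) : F k) ∈ NN Θ := by
    apply Subgroup.subset_normalClosure
    show Θ.walk Θ.v0 (mk (p ++ (l ++ invRev p))).toWord = some Θ.v0
    rw [toWord_mk]
    exact walk_red Θ reduce.red _ _ h1
  have h3 : (mk (p ++ (l ++ invRev p)) : F k) = mk p * mk l * (mk p)⁻¹ := by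
    rw [← mul_mk, ← mul_mk, inv_mk, mul_assoc]
  rw [h3] at h2
  have h4 := (inferInstance : (NN Θ).Normal).conj_mem _ h2 (mk p)⁻¹
  have h5 : (mk p : F k)⁻¹ * (mk p * mk l * (mk p)⁻¹) * (mk p)⁻¹⁻¹ = mk l := by group
  rw [h5] at h4
  exact h4

theorem path_eq (Θ : LG k) (hc : ∀ v, ∃ l, Θ.walk Θ.v0 l = some v) (v w : Θ.V) (l m : Wd k)
    (hl : Θ.walk v l = some w) (hm : Θ.walk v m = some w) :
    ((mk l : F k) : Gp Θ) = ((mk m : F k) : Gp Θ) := by
  rw [QuotientGroup.eq, inv_mk, mul_mk]
  apply closed_mem Θ hc w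
  rw [walk_append_iff]
  exact ⟨v, walk_invRev Θ l _ _ hl, hm⟩

/-! ### shortest words -/

theorem mk_append_q (N : Subgroup (F k)) [N.Normal] (l m : Wd k) :
    ((mk (l ++ m) : F k) : F k ⧸ N) = ((mk l : F k) : F k ⧸ N) * ((mk m : F k) : F k ⧸ N) := by
  rw [← mul_mk]
  rfl

theorem mk_invRev_q (N : Subgroup (F k)) [N.Normal] (l : Wd k) :
    ((mk (invRev l) : F k) : F k ⧸ N) = ((mk l : F k) : F k ⧸ N)⁻¹ := by
  rw [← inv_mk]
  rfl

theorem geo_le {N : Subgroup (F k)} [N.Normal] {x : F k ⧸ N} {lx : Wd k} (h : GeoTo N x lx)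
    (P Q R Q' : Wd k) (hl : lx = P ++ Q ++ R)
    (hq : ((mk Q : F k) : F k ⧸ N) = ((mk Q' : F k) : F k ⧸ N)) : Q.length ≤ Q'.length := by
  have h1 := h.2 (P ++ Q' ++ R) (by
    have h0 := h.1
    rw [hl, mk_append_q, mk_append_q, hq] at h0
    rw [mk_append_q, mk_append_q]
    exact h0)
  rw [hl] at h1
  simp only [List.length_append] at h1
  omega

theorem geo_reduced {N : Subgroup (F k)} [N.Normal] {x : F k ⧸ N} {lx : Wd k} (h : GeoTo N x lx) :
    IsReduced lx := by
  apply IsReduced.of_reduce_eq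
  have h1 := h.2 (reduce lx) (by rw [reduce.self]; exact h.1)
  exact (Red.sublist (reduce.red (L := lx))).eq_of_length_le h1

theorem geoA {N : Subgroup (F k)} [N.Normal] {x : F k ⧸ N} {lx : Wd k} (h : GeoTo N x lx)
    (P R a b ε : Wd k) (hl : lx = P ++ invRev a ++ R)
    (hβ : ((mk (a ++ b) : F k) : F k ⧸ N) = ((mk ε : F k) : F k ⧸ N)) :
    a.length ≤ b.length + ε.length := by
  have h1 := geo_le h P (invRev a) R (b ++ invRev ε) hl (by
    rw [mk_append_q, mk_invRev_q, mk_invRev_q, ← hβ, mk_append_q]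
    group)
  simpa using h1

theorem geoC {N : Subgroup (F k)} [N.Normal] {x : F k ⧸ N} {lx : Wd k} (h : GeoTo N x lx)
    (P R b c ε : Wd k) (hl : lx = P ++ c ++ R)
    (hβ : ((mk (b ++ c) : F k) : F k ⧸ N) = ((mk ε : F k) : F k ⧸ N)) :
    c.length ≤ b.length + ε.length := by
  have h1 := geo_le h P c R (invRev b ++ ε) hl (by
    rw [mk_append_q, mk_invRev_q, ← hβ, mk_append_q]
    group)
  simpa using h1

/-! ### common prefixes -/

theorem common_prefix {α : Type} : ∀ a b : List α, ∃ p a' b' : List α, a = p ++ a' ∧ b = p ++ b' ∧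
    ∀ x ∈ a'.head?, ∀ y ∈ b'.head?, x ≠ y
  | [], b => ⟨[], [], b, rfl, rfl, by simp⟩
  | x :: a, [] => ⟨[], x :: a, [], rfl, rfl, by simp⟩
  | x :: a, y :: b => by
    by_cases hxy : x = y
    · obtain ⟨p, a', b', h1, h2, h3⟩ := common_prefix a b
      refine ⟨x :: p, a', b', ?_, ?_, h3⟩
      · rw [h1]; rfl
      · rw [h2, hxy]; rfl
    · refine ⟨[], x :: a, y :: b, rfl, rfl, ?_⟩
      intro u hu v hv
      simp only [List.head?_cons, Option.mem_def, Option.some.injEq] at hu hv
      rw [← hu, ← hv]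
      exact hxy

theorem invRev_reduced {l : Wd k} (h : IsReduced l) : IsReduced (invRev l) := by
  apply IsReduced.of_reduce_eq
  rw [reduce_invRev, h.reduce_eq]

/-- Words with different first letters. -/
theorem junction {s r : Wd k} (hs : IsReduced s) (hr : IsReduced r)
    (h : ∀ x ∈ s.head?, ∀ y ∈ r.head?, x ≠ y) : IsReduced (invRev s ++ r) := by
  unfold FreeGroup.IsReduced
  rw [List.isChain_append]
  refine ⟨invRev_reduced hs, hr, ?_⟩
  intro x hx y hy hxy
  have h1 : (invRev s).getLast? = s.head?.map (fun g : Ltr k => (g.1, !g.2)) := by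
    unfold invRev
    rw [List.getLast?_reverse, List.head?_map]
  rw [h1, Option.mem_def, Option.map_eq_some_iff] at hx
  obtain ⟨a, ha, hax⟩ := hx
  have h2 := h a ha y hy
  subst hax
  simp only at hxy ⊢
  by_contra h3
  apply h2
  refine Prod.ext hxy ?_
  cases ha2 : a.2 <;> cases hy2 : y.2 <;> simp_all

theorem prefix_split {α : Type} {a b c d : List α} (h : a ++ b = c ++ d) (hl : a.length ≤ c.length) :
    ∃ z, c = a ++ z ∧ b = z ++ d := by
  rcases List.append_eq_append_iff.1 h with ⟨z, h1, h2⟩ | ⟨z, h1, h2⟩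
  · exact ⟨z, h1, h2⟩
  · have hz : z = [] := by
      have := congrArg List.length h1
      rw [List.length_append] at this
      exact List.eq_nil_of_length_eq_zero (by omega)
    subst hz
    exact ⟨[], by simpa using h1.symm, by simpa using h2.symm⟩

/-- The main case. -/
theorem main {Θ : LG k} {g M : ℕ} (hgood : Good Θ g M) (hg : 1000 ≤ g) (hM : 400 * M ≤ g)
    (hgr : Green Θ g) {x y : Gp Θ} {lx ly w1 w2 p3 s' t' : Wd k}
    (hx : GeoTo (NN Θ) x lx) (hy : GeoTo (NN Θ) y ly)
    (hlx : lx = w1 ++ s') (hly : ly = p3 ++ t') (hw2 : w2 ≠ [])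
    (hred : IsReduced (invRev s' ++ w2 ++ t'))
    (hmem : (mk (invRev s' ++ w2 ++ t') : F k) ∈ NN Θ) (hlen : 10 * w2.length ≤ g) :
    ∃ (s t : Wd k) (θ1 θ2 : Θ.V), (w1 ++ s) <+: lx ∧ (p3 ++ t) <+: ly ∧ s.length = M ∧
      t.length = M ∧ (Θ.walk θ1 s).isSome ∧ (Θ.walk θ2 t).isSome ∧ Θ.walk θ1 w2 = some θ2 := by
  have hne : (mk (invRev s' ++ w2 ++ t') : F k) ≠ 1 := by
    intro h
    rw [← toWord_eq_nil_iff, toWord_mk, hred.reduce_eq] at h
    simp at h
    exact hw2 h.2.1
  obtain ⟨α, β, δ, ε, θ, θ', hdec, hβ, hε, hεr, hε6, hβ94⟩ := hgr _ hmem hne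
  rw [toWord_mk, hred.reduce_eq, List.append_assoc, List.append_assoc] at hdec
  have heq : ((mk β : F k) : Gp Θ) = ((mk ε : F k) : Gp Θ) := path_eq Θ hgood.conn θ θ' β ε hβ hε
  -- `hdec : invRev s' ++ (w2 ++ t') = α ++ (β ++ δ)`
  rcases List.append_eq_append_iff.1 hdec with ⟨a, h1, h2⟩ | ⟨a, h1, h2⟩
  · -- `α = invRev s' ++ a`, `w2 ++ t' = a ++ (β ++ δ)`
    exfalso
    rcases List.append_eq_append_iff.1 h2 with ⟨b, h3, h4⟩ | ⟨b, h3, h4⟩
    · -- `a = w2 ++ b`, `t' = b ++ (β ++ δ)`
      have h5 := geoC hy (p3 ++ b) δ [] β ε (by rw [hly, h4]; simp) (by simpa using heq)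
      simp at h5
      omega
    · -- `w2 = a ++ b`, `β ++ δ = b ++ t'`
      rcases List.append_eq_append_iff.1 h4 with ⟨c, h5, h6⟩ | ⟨c, h5, h6⟩
      · -- `b = β ++ c`
        have e1 := congrArg List.length h3
        have e2 := congrArg List.length h5
        simp only [List.length_append] at e1 e2
        omega
      · -- `β = b ++ c`, `t' = c ++ δ`
        have h7 := geoC hy p3 δ b c ε (by rw [hly, h6]; simp) (by rw [← h5]; exact heq)
        have e1 := congrArg List.length h3
        have e2 := congrArg List.length h5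
        simp only [List.length_append] at e1 e2
        omega
  · -- `invRev s' = α ++ a`, `β ++ δ = a ++ (w2 ++ t')`
    have hs' : s' = invRev a ++ invRev α := by
      rw [← invRev_append, ← h1, invRev_invRev]
    rcases List.append_eq_append_iff.1 h2 with ⟨b, h3, h4⟩ | ⟨b, h3, h4⟩
    · -- `a = β ++ b`
      exfalso
      have h5 := geoA hx (w1 ++ invRev b) (invRev α) β [] ε (by
        rw [hlx, hs', h3, invRev_append]; simp) (by simpa using heq)
      simp at h5
      omega
    · -- `β = a ++ b`, `w2 ++ t' = b ++ δ`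
      rcases List.append_eq_append_iff.1 h4 with ⟨c, h5, h6⟩ | ⟨c, h5, h6⟩
      · -- `b = w2 ++ c`, `t' = c ++ δ`: the good case
        subst h5
        have h7 := geoA hx w1 (invRev α) a (w2 ++ c) ε (by rw [hlx, hs']; simp) (by
          rw [← h3]; exact heq)
        have h8 := geoC hy p3 δ (a ++ w2) c ε (by rw [hly, h6]; simp) (by
          rw [List.append_assoc, ← h3]; exact heq)
        have e1 := congrArg List.length h3
        simp only [List.length_append] at e1 h7 h8
        have hMa : M ≤ a.length := by omega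
        have hMc : M ≤ c.length := by omega
        rw [h3, walk_append_iff] at hβ
        obtain ⟨θ1, hθ1, hβ2⟩ := hβ
        rw [walk_append_iff] at hβ2
        obtain ⟨θ2, hθ2, hβ3⟩ := hβ2
        have hinv := walk_invRev Θ a _ _ hθ1
        refine ⟨(invRev a).take M, c.take M, θ1, θ2, ?_, ?_, ?_, ?_, ?_, ?_, hθ2⟩
        · rw [hlx, hs', List.prefix_append_right_inj]
          exact (List.take_prefix M _).trans (List.prefix_append _ _)
        · rw [hly, h6, List.prefix_append_right_inj]
          exact (List.take_prefix M _).trans (List.prefix_append _ _)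
        · rw [List.length_take, invRev_length]
          omega
        · rw [List.length_take]
          omega
        · rw [← List.take_append_drop M (invRev a), walk_append_iff] at hinv
          obtain ⟨u, hu, _⟩ := hinv
          rw [hu]; rfl
        · rw [← List.take_append_drop M c, walk_append_iff] at hβ3
          obtain ⟨u, hu, _⟩ := hβ3
          rw [hu]; rfl
      · -- `w2 = b ++ c`, `δ = c ++ t'`
        exfalso
        have h7 := geoA hx w1 (invRev α) a b ε (by rw [hlx, hs']; simp) (by rw [← h3]; exact heq)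
        have e1 := congrArg List.length h3
        have e2 := congrArg List.length h5
        simp only [List.length_append] at e1 e2
        omega

end

theorem typ : S_TYP := by
  intro k Θ g M hgood hg hM hM1 hgr x w lx ly hw hx hy
  have hWr : IsReduced w.toWord := isReduced_toWord
  have hlxr := geo_reduced hx
  have hlyr := geo_reduced hy
  obtain ⟨w1, r, s', hW, hlx, hne1⟩ := common_prefix w.toWord lx
  obtain ⟨p3, r3, t', hW3, hly, hne3⟩ := common_prefix (invRev w.toWord) ly
  have hsp : p3 ++ r3 = invRev r ++ invRev w1 := by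
    rw [← hW3, hW, invRev_append]
  by_cases hcase : r.length ≤ p3.length
  · left
    refine ⟨w1, r, hW, ⟨s', hlx.symm⟩, ?_⟩
    obtain ⟨z, hz, _⟩ := prefix_split hsp.symm (by rw [invRev_length]; exact hcase)
    rw [hly, hz]
    exact ⟨z ++ t', by simp⟩
  · right
    push Not at hcase
    obtain ⟨z, hz, hr3⟩ := prefix_split hsp (by rw [invRev_length]; exact hcase.le)
    -- `invRev r = p3 ++ z`, `r3 = z ++ invRev w1`
    have hr : r = invRev z ++ invRev p3 := by
      rw [← invRev_append, ← hz, invRev_invRev]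
    have hzne : z ≠ [] := by
      intro h
      rw [h] at hz
      have := congrArg List.length hz
      rw [invRev_length, List.append_nil] at this
      omega
    have hw2ne : invRev z ≠ [] := by
      intro h
      have := congrArg List.length h
      rw [invRev_length] at this
      exact hzne (List.eq_nil_of_length_eq_zero this)
    have hWd : w.toWord = w1 ++ invRev z ++ invRev p3 := by rw [hW, hr, List.append_assoc]
    have hs'r : IsReduced s' := by
      rw [hlx] at hlxr
      exact List.IsChain.right_of_append hlxr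
    have ht'r : IsReduced t' := by
      rw [hly] at hlyr
      exact List.IsChain.right_of_append hlyr
    have hw2r : IsReduced (invRev z) := by
      rw [hWd] at hWr
      exact List.IsChain.right_of_append (List.IsChain.left_of_append hWr)
    have hzr : IsReduced z := by
      have := invRev_reduced hw2r
      rwa [invRev_invRev] at this
    have hj1 : IsReduced (invRev s' ++ invRev z) := by
      apply junction hs'r hw2r
      intro a ha b hb
      refine (hne1 b ?_ a ha).symm
      rw [hr]
      rw [Option.mem_def] at hb ⊢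
      rw [List.head?_append, hb]
      rfl
    have hj2 : IsReduced (invRev z ++ t') := by
      apply junction hzr ht'r
      intro a ha b hb
      refine hne3 a ?_ b hb
      rw [hr3]
      rw [Option.mem_def] at ha ⊢
      rw [List.head?_append, ha]
      rfl
    have hred : IsReduced (invRev s' ++ invRev z ++ t') := hj1.append_overlap hj2 hw2ne
    have hmem : (mk (invRev s' ++ invRev z ++ t') : F k) ∈ NN Θ := by
      rw [← QuotientGroup.eq_one_iff, mk_append_q, mk_append_q, mk_invRev_q]
      have e1 := hx.1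
      have e2 := hy.1
      rw [hlx, mk_append_q] at e1
      rw [hly, mk_append_q] at e2
      have e3 : (w : Gp Θ) = ((mk w1 : F k) : Gp Θ) * ((mk (invRev z) : F k) : Gp Θ) *
          ((mk p3 : F k) : Gp Θ)⁻¹ := by
        rw [← mk_invRev_q, ← mk_append_q, ← mk_append_q, ← hWd, mk_toWord]
      rw [e3] at e2
      have e4 : x = (((mk w1 : F k) : Gp Θ) * ((mk s' : F k) : Gp Θ))⁻¹ := eq_inv_of_mul_eq_one_left e1
      rw [e4] at e2
      rw [← e2]
      group
    have hlen : 10 * (invRev z).length ≤ g := by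
      have : (invRev z).length ≤ w.norm := by
        show _ ≤ w.toWord.length
        rw [hWd]
        simp only [List.length_append]
        omega
      omega
    obtain ⟨s, t, θ1, θ2, h1, h2, h3, h4, h5, h6, h7⟩ :=
      main hgood hg hM hgr hx hy hlx hly hw2ne hred hmem hlen
    exact ⟨w1, invRev z, invRev p3, s, t, θ1, θ2, hWd, h1, by rw [invRev_invRev]; exact h2, h3, h4,
      h5, h6, h7⟩

end Pool.Agent.Y930.EG.Typ
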